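import Mathlib
import Pool.Agent.Lib.MP_0ea763_nt_Five.Main

set_option autoImplicit false

/-!
# Five shifts of sums of two squares, for almost all fifth shifts
-/

namespace Pool.Agent.Results.MP_0ea763_nt.FiveShifts

open Filter Topology

/-- `m` is an element of `𝒮`, i.e. a sum of two squares of integers. -/
def IsS (m : ℤ) : Prop := ∃ a b : ℤ, m = a ^ 2 + b ^ 2

/-- The conclusion of Q1 for the finite set `h`: there are infinitely many integers `n` with
`n + h ⊆ 𝒮`. -/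
def InfinitelyOften (h : Finset ℤ) : Prop := {n : ℤ | ∀ t ∈ h, IsS (n + t)}.Infinite

/-- Let `h₁, h₂, h₃` be distinct integers congruent modulo 128, two of them congruent modulo 3, and
let `h₄` be any integer. The set of the integers `h₅` for which the conclusion of Q1 fails for
`{h₁, h₂, h₃, h₄, h₅}` has density zero. -/
theorem result (h₁ h₂ h₃ h₄ : ℤ) (h12 : h₁ ≠ h₂) (h13 : h₁ ≠ h₃) (h23 : h₂ ≠ h₃)
    (m2 : h₁ ≡ h₂ [ZMOD 128]) (m3 : h₁ ≡ h₃ [ZMOD 128])
    (nc : h₁ ≡ h₂ [ZMOD 3] ∨ h₁ ≡ h₃ [ZMOD 3] ∨ h₂ ≡ h₃ [ZMOD 3]) :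
    Tendsto (fun X : ℕ =>
      ({h₅ : ℤ | |h₅| ≤ (X : ℤ) ∧
        ¬ InfinitelyOften ({h₁, h₂, h₃, h₄, h₅} : Finset ℤ)}.ncard : ℝ) / (X : ℝ))
      atTop (𝓝 0) := by
  have e2 := m2.dvd
  have e3 := m3.dvd
  have en : (h₂ - h₁) % 3 = 0 ∨ (h₃ - h₁) % 3 = 0 ∨ (h₂ - h₃) % 3 = 0 := by
    rcases nc with h | h | h
    · left; have := h.dvd; omega
    · right; left; have := h.dvd; omega
    · right; right; have := h.dvd; omega
  have h := Pool.Agent.Lib.MP_0ea763_nt_Five.almost_all h₁ h₂ h₃ h₄ h12 h13 h23 (by omega)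
    (by omega) en
  refine Pool.Agent.Lib.MP_0ea763_nt_Five.ZeroDensity.mono h ?_
  intro h₅ hn hI
  apply hn
  refine hI.mono ?_
  rintro n ⟨s1, s2, s3, s4, s5⟩ t ht
  simp only [Finset.mem_insert, Finset.mem_singleton] at ht
  rcases ht with rfl | rfl | rfl | rfl | rfl
  · exact s1
  · exact s2
  · exact s3
  · exact s4
  · exact s5

end Pool.Agent.Results.MP_0ea763_nt.FiveShifts
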