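import Mathlib
import Pool.Agent.Lib.MP_0ea763_nt.FourCore

set_option autoImplicit false

/-!
# Shifted 4-tuples of sums of two squares

For every set `h` of four distinct integers with positive singular series there are infinitely
many integers `n` such that all `n + t`, `t ∈ h`, are sums of two squares (the case `k = 4` of
the question).
-/

namespace Pool.Agent.Results.MP_0ea763_nt.FourShifts

open Filter Topology

/-- `m` is an element of `𝒮`, i.e. a sum of two squares of integers. -/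
def IsS (m : ℤ) : Prop := ∃ a b : ℤ, m = a ^ 2 + b ^ 2

/-- `#S_h(p^α)`: the number of `0 ≤ a < p^α` such that for every `t ∈ h` the integer `a + t` is
congruent modulo `p^α` to some element of `𝒮`. -/
noncomputable def localCount (h : Finset ℤ) (p α : ℕ) : ℕ :=
  Set.ncard {a : ℕ | a < p ^ α ∧ ∀ t ∈ h, ∃ s : ℤ, IsS s ∧ (a : ℤ) + t ≡ s [ZMOD (p : ℤ) ^ α]}

/-- `δ_h(p) = lim_{α → ∞} #S_h(p^α) / p^α`. -/
noncomputable def delta (h : Finset ℤ) (p : ℕ) : ℝ :=
  limUnder atTop (fun α : ℕ => (localCount h p α : ℝ) / (p : ℝ) ^ α)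

/-- `ε_h(p) = δ_0(p)^{-k} δ_h(p) - 1` with `k = #h` and `δ_0(p) = δ_{{0}}(p)`. -/
noncomputable def eps (h : Finset ℤ) (p : ℕ) : ℝ :=
  (delta {0} p)⁻¹ ^ h.card * delta h p - 1

/-- The singular series: the product of `1 + ε_h(p)` over the primes `p` not congruent to 1
modulo 4. -/
noncomputable def singularSeries (h : Finset ℤ) : ℝ :=
  ∏' p : {p : ℕ // p.Prime ∧ p % 4 ≠ 1}, (1 + eps h p)

lemma nonempty_of_pos (h : Finset ℤ) (hpos : 0 < singularSeries h) (α : ℕ) :
    ∃ a : ℕ, ∀ t ∈ h, ∃ s : ℤ, IsS s ∧ (a : ℤ) + t ≡ s [ZMOD (2 : ℤ) ^ α] := by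
  by_contra hcon
  have hδ : delta h 2 = 0 := by
    unfold delta
    apply Tendsto.limUnder_eq
    apply tendsto_const_nhds.congr'
    filter_upwards [eventually_ge_atTop α] with β hβ
    have : localCount h 2 β = 0 := by
      unfold localCount
      by_contra hne
      obtain ⟨a, -, ha⟩ := Set.nonempty_of_ncard_ne_zero hne
      apply hcon
      refine ⟨a, fun t ht => ?_⟩
      obtain ⟨s, hs, hm⟩ := ha t ht
      refine ⟨s, hs, ?_⟩
      exact Int.ModEq.of_dvd (pow_dvd_pow _ hβ) hm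
    rw [this]; simp
  have h0 : singularSeries h = 0 := by
    unfold singularSeries
    apply tprod_of_exists_eq_zero
    refine ⟨⟨2, Nat.prime_two, by norm_num⟩, ?_⟩
    show 1 + eps h 2 = 0
    unfold eps
    rw [hδ]; ring
  rw [h0] at hpos
  exact lt_irrefl _ hpos

/-- **Four shifts.** For every set `h` of four distinct integers with positive singular series
there are infinitely many integers `n` such that `n + t` is a sum of two squares for every
`t ∈ h`. -/
theorem result (h : Finset ℤ) (hcard : h.card = 4) (hpos : 0 < singularSeries h) :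
    {n : ℤ | ∀ t ∈ h, IsS (n + t)}.Infinite := by
  obtain ⟨h1, T, hT1, hT, hTc⟩ := Finset.card_eq_succ.mp hcard
  obtain ⟨h2, h3, h4, d23, d24, d34, rfl⟩ := Finset.card_eq_three.mp hTc
  subst hT
  have d1 : h1 ≠ h2 ∧ h1 ≠ h3 ∧ h1 ≠ h4 := by simpa using hT1
  obtain ⟨d12, d13, d14⟩ := d1
  have hL : Pool.Agent.Lib.MP_0ea763_nt.Loc h1 h2 h3 h4 := by
    intro α
    obtain ⟨a, ha⟩ := nonempty_of_pos _ hpos α
    have key : ∀ t ∈ (insert h1 {h2, h3, h4} : Finset ℤ), Pool.Agent.Lib.MP_0ea763_nt.Near α (a + t) := by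
      intro t ht
      obtain ⟨s, ⟨x, y, hs⟩, hm⟩ := ha t ht
      refine ⟨x, y, ?_⟩
      rw [← hs]
      exact (Int.modEq_iff_dvd.mp hm.symm)
    exact ⟨a, key h1 (by simp), key h2 (by simp), key h3 (by simp), key h4 (by simp)⟩
  have hI := Pool.Agent.Lib.MP_0ea763_nt.core (|h1 - h4| + |h2 - h4| + |h3 - h4|).toNat
    h1 h2 h3 h4 d12 d13 d14 d23 d24 d34 hL (Int.self_le_toNat _)
  refine hI.mono ?_
  rintro n ⟨s1, s2, s3, s4⟩ t ht
  simp only [Finset.mem_insert, Finset.mem_singleton] at ht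
  rcases ht with rfl | rfl | rfl | rfl
  · exact s1
  · exact s2
  · exact s3
  · exact s4

end Pool.Agent.Results.MP_0ea763_nt.FourShifts
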