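import Mathlib
import Pool.Agent.Lib.MP_0ea763_nt.FourCore

set_option autoImplicit false

/-!
# Shifted sums of two squares when the shifts lie in the union of two quadratic sequences
-/

namespace Pool.Agent.Results.MP_0ea763_nt.QuadraticShifts

/-- `m` is an element of `𝒮`, i.e. a sum of two squares of integers. -/
def IsS (m : ℤ) : Prop := ∃ a b : ℤ, m = a ^ 2 + b ^ 2

/-- The conclusion of Q1 for the finite set `h`: there are infinitely many integers `n` with
`n + h ⊆ 𝒮`. -/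
def InfinitelyOften (h : Finset ℤ) : Prop := {n : ℤ | ∀ x ∈ h, IsS (n + x)}.Infinite

/-- a positive sum of two squares can be cancelled -/
lemma cancel {D m : ℤ} (hD : 0 < D) (hS : IsS D) (h : IsS (D * m)) : IsS m := by
  have hm : 0 ≤ m := by
    obtain ⟨a, b, hab⟩ := h
    by_contra hneg
    push Not at hneg
    nlinarith [sq_nonneg a, sq_nonneg b]
  rcases hm.eq_or_lt with h0 | h0
  · exact ⟨0, 0, by rw [← h0]; norm_num⟩
  lift D to ℕ using hD.le
  lift m to ℕ using hm
  have hD0 : D ≠ 0 := by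
    rintro rfl
    simp at hD
  have hm0 : m ≠ 0 := by
    rintro rfl
    simp at h0
  have conv : ∀ k : ℕ, IsS (k : ℤ) → ∃ x y : ℕ, k = x ^ 2 + y ^ 2 := by
    rintro k ⟨a, b, hab⟩
    refine ⟨a.natAbs, b.natAbs, ?_⟩
    zify
    rw [sq_abs, sq_abs]
    exact hab
  have e1 := Nat.eq_sq_add_sq_iff.1 (conv D hS)
  have e2 := Nat.eq_sq_add_sq_iff.1 (conv (D * m) (by exact_mod_cast h))
  obtain ⟨x, y, hxy⟩ := (Nat.eq_sq_add_sq_iff (n := m)).2 (by
    intro q hq h3
    have hqp := Nat.prime_of_mem_primeFactors hq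
    haveI := Fact.mk hqp
    have h4 : q ∈ (D * m).primeFactors := by
      rw [Nat.primeFactors_mul hD0 hm0]
      exact Finset.mem_union_right _ hq
    have h5 := e2 q h4 h3
    rw [padicValNat.mul hD0 hm0] at h5
    have h6 : Even (padicValNat q D) := by
      by_cases h7 : q ∈ D.primeFactors
      · exact e1 q h7 h3
      · have h8 : ¬ q ∣ D := fun h9 => h7 (Nat.mem_primeFactors.2 ⟨hqp, h9, hD0⟩)
        rw [padicValNat.eq_zero_of_not_dvd h8]
        exact Even.zero
    exact (Nat.even_add.1 h5).1 h6)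
  exact ⟨x, y, by exact_mod_cast hxy⟩

/-- Let `D₁`, `D₂` be positive sums of two squares whose product is not a square, and let `E₁`,
`E₂`, `m` be integers such that `D₁ m + E₁` and `D₂ m + E₂` are perfect squares, not both `0`. Let
`h` be a finite set of integers, of any size, such that for every `x` in `h` at least one of
`D₁ x - E₁`, `D₂ x - E₂` is a perfect square. Then there are infinitely many integers `n` such that
`n + x` is a sum of two squares for all `x` in `h`. -/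
theorem result (h : Finset ℤ) (D₁ D₂ E₁ E₂ m : ℤ) (h1 : 0 < D₁) (h2 : 0 < D₂) (s1 : IsS D₁)
    (s2 : IsS D₂) (hns : ¬ IsSquare (D₁ * D₂)) (hm1 : IsSquare (D₁ * m + E₁))
    (hm2 : IsSquare (D₂ * m + E₂)) (hm : D₁ * m + E₁ ≠ 0 ∨ D₂ * m + E₂ ≠ 0)
    (hh : ∀ x ∈ h, IsSquare (D₁ * x - E₁) ∨ IsSquare (D₂ * x - E₂)) :
    InfinitelyOften h := by
  obtain ⟨M₁, hM₁⟩ := hm1
  obtain ⟨M₂, hM₂⟩ := hm2
  have hM : M₁ ≠ 0 ∨ M₂ ≠ 0 := by
    rcases hm with h | h
    · left
      rintro rfl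
      exact h (by rw [hM₁]; ring)
    · right
      rintro rfl
      exact h (by rw [hM₂]; ring)
  apply Pool.Agent.Lib.MP_0ea763_nt.infinite_of_large
  intro L
  obtain ⟨t, s, hts, hL⟩ := Pool.Agent.Lib.MP_0ea763_nt.pell_large D₁ D₂ M₁ M₂ h1 h2 hns hM (L - m)
  refine ⟨m + (D₁ * (2 * t) ^ 2 + 2 * M₁ * (2 * t)), by linarith, ?_⟩
  intro x hx
  rcases hh x hx with ⟨c, hc⟩ | ⟨c, hc⟩
  · refine cancel h1 s1 ⟨M₁ + D₁ * (2 * t), c, ?_⟩
    linear_combination hM₁ + hc
  · rw [hts]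
    refine cancel h2 s2 ⟨M₂ + D₂ * (2 * s), c, ?_⟩
    linear_combination hM₂ + hc

end Pool.Agent.Results.MP_0ea763_nt.QuadraticShifts
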