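import Mathlib
import Pool.Agent.Lib.MP_0ea763_nt_Sq.Pairs

set_option autoImplicit false

/-!
# Shifted sums of two squares when all but two of the shifts are perfect squares
-/

namespace Pool.Agent.Results.MP_0ea763_nt.SquareShifts

/-- `m` is an element of `𝒮`, i.e. a sum of two squares of integers. -/
def IsS (m : ℤ) : Prop := ∃ a b : ℤ, m = a ^ 2 + b ^ 2

/-- The conclusion of Q1 for the finite set `h`: there are infinitely many integers `n` with
`n + h ⊆ 𝒮`. -/
def InfinitelyOften (h : Finset ℤ) : Prop := {n : ℤ | ∀ x ∈ h, IsS (n + x)}.Infinite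

/-- Let `h` be a finite set of integers, of any size, all of whose elements have the form `t + a^2`
except possibly the two elements `t + b` and `t + c`. If `b ≡ c mod 16`, or `b ≡ 0` and
`c ≢ 2 mod 4`, or `b ≡ 1` and `c ≢ 3 mod 4`, or `b ≡ 1 mod 8`, then there are infinitely many
integers `n` such that `n + x` is a sum of two squares for all `x` in `h`. -/
theorem result (h : Finset ℤ) (t b c : ℤ)
    (hbc : b ≡ c [ZMOD 16] ∨ (b ≡ 0 [ZMOD 4] ∧ ¬ c ≡ 2 [ZMOD 4]) ∨
      (b ≡ 1 [ZMOD 4] ∧ ¬ c ≡ 3 [ZMOD 4]) ∨ b ≡ 1 [ZMOD 8])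
    (hh : ∀ x ∈ h, (∃ a : ℤ, x = t + a ^ 2) ∨ x = t + b ∨ x = t + c) :
    InfinitelyOften h := by
  have hB : Pool.Agent.Lib.MP_0ea763_nt_Sq.Both b c := by
    apply Pool.Agent.Lib.MP_0ea763_nt_Sq.both
    simp only [Int.ModEq] at hbc
    omega
  apply Pool.Agent.Lib.MP_0ea763_nt.infinite_of_large
  intro L
  obtain ⟨T, hT, h1, h2⟩ := hB (|L| + |t|)
  refine ⟨T ^ 2 - t, ?_, ?_⟩
  · have a1 := le_abs_self L
    have a2 := le_abs_self t
    have a3 := abs_nonneg L
    have a4 := abs_nonneg t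
    nlinarith
  · intro x hx
    rcases hh x hx with ⟨a, rfl⟩ | rfl | rfl
    · exact ⟨T, a, by ring⟩
    · obtain ⟨u, v, huv⟩ := h1
      exact ⟨u, v, by rw [← huv]; ring⟩
    · obtain ⟨u, v, huv⟩ := h2
      exact ⟨u, v, by rw [← huv]; ring⟩

end Pool.Agent.Results.MP_0ea763_nt.SquareShifts
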